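import Pool.Agent.helper92.VT.Spec

/-!
# Row vt:NPD: padding of exponential sums
-/

set_option autoImplicit false

universe u

namespace Pool.Agent.helper92.VT

open MvPolynomial Pool.Agent.helper92.VC

theorem NPD_mono {k : Type u} [Field k] {n d m L D L' D' : ℕ} {φ : (Fin n → ℕ) → k}
    (h : NF k n d m L D φ) (hL : L ≤ L') (hD : D ≤ D') : NF k n d m L' D' φ := by
  obtain ⟨Φ, ⟨l, h1, h2, h3⟩, h4, h5⟩ := h
  exact ⟨Φ, ⟨l, h1, h2.trans hL, h3⟩, h4.trans hD, h5⟩

theorem NPD_step (hSUB : SUB_stmt.{u}) {k : Type u} [Field k] {n d m L D : ℕ} {φ : (Fin n → ℕ) → k}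
    (h : NF k n d m L D φ) : NF k n d (m + 1) (L + 2) (D + 1) φ := by
  obtain ⟨Φ, hΦ, h4, h5⟩ := h
  obtain ⟨f, hf⟩ : ∃ f : (Fin n × Fin (d + 1)) ⊕ Fin m → (Fin n × Fin (d + 1)) ⊕ Fin (m + 1),
    f = Sum.map id Fin.succ := ⟨_, rfl⟩
  have h6 := hSUB _ ((Fin n × Fin (d + 1)) ⊕ Fin (m + 1)) k (fun x => X (f x)) L Φ hΦ
  have hren : MvPolynomial.aeval (fun x => (X (f x) : MvPolynomial _ k)) Φ = rename f Φ := by
    rw [rename_eq_aeval]
    rfl
  rw [hren] at h6
  obtain ⟨l, h7, h8, h9⟩ := h6 [] SLP.nil (by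
    rintro s ⟨x, rfl⟩
    exact Or.inl ⟨f x, rfl⟩)
  rw [List.append_nil] at h7 h9
  have h10 : Avail l (rename f Φ) := h9 _ rfl
  obtain ⟨z0, hz0⟩ : ∃ z0 : MvPolynomial ((Fin n × Fin (d + 1)) ⊕ Fin (m + 1)) k,
    z0 = C 1 - X (Sum.inr 0) := ⟨_, rfl⟩
  refine ⟨rename f Φ * z0, ⟨(rename f Φ * z0) :: z0 :: l, ?_, ?_, ?_⟩, ?_, ?_⟩
  · apply SLP.mul
    · rw [hz0]
      exact SLP.sub _ _ _ h7 (Or.inr (Or.inl ⟨1, rfl⟩)) (Or.inl ⟨_, rfl⟩)
    · exact CST_mono [z0] h10
    · exact Or.inr (Or.inr (by simp))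
  · simp only [List.length_cons]
    omega
  · exact Or.inr (Or.inr (by simp))
  · have h11 : z0.totalDegree ≤ 1 := by
      rw [hz0]
      refine (totalDegree_sub _ _).trans ?_
      rw [totalDegree_C, totalDegree_X]
      exact le_of_eq (max_eq_right (Nat.zero_le 1))
    exact (totalDegree_mul _ _).trans (Nat.add_le_add ((totalDegree_rename_le f Φ).trans h4) h11)
  · intro e he
    rw [h5 e he]
    rw [← (Fin.consEquiv (fun _ : Fin (m + 1) => Fin 2)).sum_comp, Fintype.sum_prod_type, Fin.sum_univ_two]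
    have hev : ∀ (b : Fin 2) (z : Fin m → Fin 2),
        MvPolynomial.eval (Sum.elim (oh k n d e) fun i : Fin (m + 1) =>
          (((Fin.consEquiv (fun _ : Fin (m + 1) => Fin 2) (b, z)) i : ℕ) : k)) (rename f Φ * z0) =
        MvPolynomial.eval (Sum.elim (oh k n d e) fun i => ((z i : ℕ) : k)) Φ * (1 - ((b : ℕ) : k)) := by
      intro b z
      rw [map_mul, eval_rename, hz0, map_sub, eval_C, eval_X]
      have h12 : (Sum.elim (oh k n d e) fun i : Fin (m + 1) =>
          (((Fin.consEquiv (fun _ : Fin (m + 1) => Fin 2) (b, z)) i : ℕ) : k)) ∘ f =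
          Sum.elim (oh k n d e) fun i => ((z i : ℕ) : k) := by
        funext x
        rw [hf]
        rcases x with x | x
        · rfl
        · simp [Fin.consEquiv]
      rw [h12]
      simp [Fin.consEquiv]
    simp only [hev]
    simp

theorem NPD (hSUB : SUB_stmt.{u}) : NPD_stmt.{u} := by
  intro k _ n d m L D m' L' D' φ h hm hL hD
  have h1 : ∀ j : ℕ, NF k n d (m + j) (L + 2 * j) (D + j) φ := by
    intro j
    induction j with
    | zero => exact h
    | succ j ih =>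
      have h2 := NPD_step hSUB ih
      exact NPD_mono h2 (by omega) (by omega)
  obtain ⟨j, rfl⟩ := Nat.exists_eq_add_of_le hm
  exact NPD_mono (h1 j) (by omega) (by omega)

end Pool.Agent.helper92.VT
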